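import Pool.Agent.Helper64.BC.Iter
import Pool.Agent.Results.MP_ddcbd8_an.SingularDensities

/-!
# Approximating densities of absolutely continuous Bernoulli convolutions

If the Bernoulli convolution `ν_β` is absolutely continuous then `f_n(x) → h_β(x)` for Lebesgue
almost every `x`, where `h_β` is its density.

The definitions `coin`, `dig`, `expansion`, `bernoulliConv` and `f` are those of
`Pool.Agent.Results.MP_ddcbd8_an.SingularDensities`.
-/

open MeasureTheory Filter Topology Set Metric
open scoped ENNReal ContDiff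
open Pool.Agent.Results.MP_ddcbd8_an.SingularDensities
open Helper64.BC

namespace Pool.Agent.Results.MP_ddcbd8_an.AbsolutelyContinuousDensities

variable {β : ℝ}

/-- Change of variables. -/
lemma lintegral_comp_mul (hβ : 0 < β) {g : ℝ → ℝ≥0∞} (hg : Measurable g) (a : ℝ) :
    ∫⁻ x, g x = ENNReal.ofReal β * ∫⁻ y, g (β * y - a) := by
  have h1 : ∫⁻ y, g (β * y - a) = ENNReal.ofReal β⁻¹ * ∫⁻ z, g (z - a) := by
    have hmap := Real.map_volume_mul_left hβ.ne'
    have h2 : ∫⁻ z, g (z - a) ∂(Measure.map (β * ·) volume) = ∫⁻ y, g (β * y - a) :=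
      lintegral_map (by fun_prop) (by fun_prop)
    rw [← h2, hmap, lintegral_smul_measure, abs_of_pos (by positivity : 0 < β⁻¹), smul_eq_mul]
  have h3 : ∫⁻ z, g (z - a) = ∫⁻ z, g z := lintegral_sub_right_eq_self g a
  rw [h1, h3, ← mul_assoc, ← ENNReal.ofReal_mul hβ.le, mul_inv_cancel₀ hβ.ne', ENNReal.ofReal_one,
    one_mul]

/-- The functional equation of the density. -/
lemma rnDeriv_fe (hβ : 1 < β) (hac : bernoulliConv β ≪ volume) :
    ∀ᵐ x, (bernoulliConv β).rnDeriv volume x =
      ENNReal.ofReal (β / 2) * ((bernoulliConv β).rnDeriv volume (β * x) +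
        (bernoulliConv β).rnDeriv volume (β * x - 1)) := by
  have : Fact (1 < β) := ⟨hβ⟩
  have hβ0 : 0 < β := by linarith
  set h₀ := (bernoulliConv β).rnDeriv volume with hh₀
  have hm : Measurable h₀ := Measure.measurable_rnDeriv _ _
  set g : ℝ → ℝ≥0∞ := fun x => ENNReal.ofReal (β / 2) * (h₀ (β * x) + h₀ (β * x - 1)) with hg
  have hgm : Measurable g := by
    rw [hg]
    fun_prop
  have key : bernoulliConv β = volume.withDensity g := by
    ext A hA
    rw [withDensity_apply _ hA, self_similar hβ hA]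
    have hm0 : Measurable fun x : ℝ => x / β := by fun_prop
    have hm1 : Measurable fun x : ℝ => (1 + x) / β := by fun_prop
    have hA0 : MeasurableSet {x : ℝ | x / β ∈ A} := hm0 hA
    have hA1 : MeasurableSet {x : ℝ | (1 + x) / β ∈ A} := hm1 hA
    have e0 : bernoulliConv β {x : ℝ | x / β ∈ A} =
        ENNReal.ofReal β * ∫⁻ y in A, h₀ (β * y) := by
      rw [← Measure.setLIntegral_rnDeriv hac, ← lintegral_indicator hA0,
        lintegral_comp_mul hβ0 ((hm.indicator hA0)) 0, ← lintegral_indicator hA]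
      congr 1
      refine lintegral_congr fun y => ?_
      have e : β * y - 0 ∈ {x : ℝ | x / β ∈ A} ↔ y ∈ A := by
        rw [mem_ofPred_eq, sub_zero, mul_div_cancel_left₀ _ hβ0.ne']
      by_cases hy : y ∈ A
      · rw [indicator_of_mem hy, indicator_of_mem (e.mpr hy), sub_zero]
      · rw [indicator_of_notMem hy, indicator_of_notMem (fun H => hy (e.mp H))]
    have e1 : bernoulliConv β {x : ℝ | (1 + x) / β ∈ A} =
        ENNReal.ofReal β * ∫⁻ y in A, h₀ (β * y - 1) := by
      rw [← Measure.setLIntegral_rnDeriv hac, ← lintegral_indicator hA1,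
        lintegral_comp_mul hβ0 ((hm.indicator hA1)) 1, ← lintegral_indicator hA]
      congr 1
      refine lintegral_congr fun y => ?_
      have e : β * y - 1 ∈ {x : ℝ | (1 + x) / β ∈ A} ↔ y ∈ A := by
        have : (1 + (β * y - 1)) / β = y := by field_simp; ring
        rw [mem_ofPred_eq, this]
      by_cases hy : y ∈ A
      · rw [indicator_of_mem hy, indicator_of_mem (e.mpr hy)]
      · rw [indicator_of_notMem hy, indicator_of_notMem (fun H => hy (e.mp H))]
    rw [e0, e1]
    have e2 : ∫⁻ y in A, g y = ENNReal.ofReal (β / 2) *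
        ((∫⁻ y in A, h₀ (β * y)) + ∫⁻ y in A, h₀ (β * y - 1)) := by
      simp only [hg]
      rw [lintegral_const_mul _ (by fun_prop), lintegral_add_left (by fun_prop)]
    rw [e2]
    have e3 : ENNReal.ofReal (β / 2) = 2⁻¹ * ENNReal.ofReal β := by
      rw [div_eq_inv_mul, ENNReal.ofReal_mul (by norm_num), ENNReal.ofReal_inv_of_pos (by norm_num)]
      norm_num
    rw [e3]
    ring
  have h1 : (volume.withDensity g).rnDeriv volume =ᵐ[volume] g :=
    Measure.rnDeriv_withDensity volume hgm
  rw [← key] at h1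
  exact h1

lemma isDens (hβ : 1 < β) (hac : bernoulliConv β ≪ volume) :
    IsDens β fun x => ((bernoulliConv β).rnDeriv volume x).toReal := by
  have hfact : Fact (1 < β) := ⟨hβ⟩
  have hβ0 : 0 < β := by linarith
  refine ⟨(Measure.measurable_rnDeriv _ _).ennreal_toReal, fun x => ENNReal.toReal_nonneg,
    Measure.integrable_toReal_rnDeriv, ?_, ?_, ?_⟩
  · rw [Measure.integral_toReal_rnDeriv hac]
    simp
  · have h1 : bernoulliConv β (Icc 0 (1 / (β - 1)))ᶜ = 0 := by
      unfold bernoulliConv
      rw [Measure.map_apply (continuous_expansion hβ).measurable measurableSet_Icc.compl]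
      have : expansion β ⁻¹' (Icc 0 (1 / (β - 1)))ᶜ = ∅ := by
        rw [eq_empty_iff_forall_notMem]
        intro a ha
        exact ha (expansion_mem hβ a)
      rw [this, measure_empty]
    rw [← Measure.setLIntegral_rnDeriv hac,
      lintegral_eq_zero_iff (Measure.measurable_rnDeriv _ _)] at h1
    have h2 := (ae_restrict_iff' measurableSet_Icc.compl).mp h1
    filter_upwards [h2] with x hx hxn
    have := hx hxn
    rw [this]
    simp
  · have hlt : ∀ᵐ x, (bernoulliConv β).rnDeriv volume x < ⊤ :=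
      Measure.rnDeriv_lt_top _ _
    have hlt0 : ∀ᵐ x : ℝ, (bernoulliConv β).rnDeriv volume (β * x) < ⊤ := by
      have := ae_comp_affine hlt 0 hβ0.ne'
      simpa using this
    have hlt1 : ∀ᵐ x : ℝ, (bernoulliConv β).rnDeriv volume (β * x - 1) < ⊤ := by
      have := ae_comp_affine hlt (-1) hβ0.ne'
      filter_upwards [this] with x hx
      have e : -1 + β * x = β * x - 1 := by ring
      rwa [e] at hx
    filter_upwards [rnDeriv_fe hβ hac, hlt0, hlt1] with x h1 h2 h3
    rw [h1, ENNReal.toReal_mul, ENNReal.toReal_add h2.ne h3.ne,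
      ENNReal.toReal_ofReal (by positivity)]

lemma f_eq_A (β : ℝ) (n : ℕ) (x : ℝ) :
    f β n x = A β n ((Icc (-(1 / (β - 1))) 0).indicator fun _ => β - 1) x := by
  induction n generalizing x with
  | zero =>
    simp only [f, A_zero]
    have e : -x ∈ Icc (-(1 / (β - 1))) 0 ↔ x ∈ Icc 0 (1 / (β - 1)) := by
      rw [mem_Icc, mem_Icc]
      constructor
      · rintro ⟨h1, h2⟩
        constructor <;> linarith
      · rintro ⟨h1, h2⟩
        constructor <;> linarith
    by_cases hx : x ∈ Icc 0 (1 / (β - 1))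
    · rw [indicator_of_mem hx, indicator_of_mem (e.mpr hx)]
    · rw [indicator_of_notMem hx, indicator_of_notMem (fun H => hx (e.mp H))]
  | succ n ih =>
    simp only [f, A_succ, smul_eq_mul]
    rw [ih, ih]

lemma test_real (hβ : 1 < β) (hβ2 : β < 2) {h : ℝ → ℝ} (hh : IsDens β h) {x : ℝ}
    (hx : Leb β h x) {φ : ℝ → ℝ} (hφ : ContDiff ℝ ∞ φ) (hc : HasCompactSupport φ) :
    Tendsto (fun n => A β n φ x) atTop (𝓝 (h x * ∫ s, φ s)) := by
  have hcc : Cc fun s => (φ s : ℂ) :=
    ⟨Complex.ofRealCLM.contDiff.comp hφ, hc.comp_left (g := fun x : ℝ => (x : ℂ)) (by simp)⟩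
  have h1 := tendsto_test hβ hβ2 hh hx hcc
  simp only [A_ofReal] at h1
  rw [integral_complex_ofReal] at h1
  have := (Complex.continuous_re.tendsto _).comp h1
  simpa [Function.comp_def] using this

/-- **If the Bernoulli convolution `ν_β` is absolutely continuous then `f_n(x) → h_β(x)` for
almost every `x`**, where `h_β` is the density of `ν_β`. -/
theorem result (β : ℝ) (hβ : 1 < β) (hβ2 : β < 2) (hac : bernoulliConv β ≪ volume) :
    ∀ᵐ x ∂(volume : Measure ℝ), Tendsto (fun n => f β n x) atTop
      (𝓝 ((bernoulliConv β).rnDeriv volume x).toReal) := by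
  have hh := isDens hβ hac
  set h : ℝ → ℝ := fun x => ((bernoulliConv β).rnDeriv volume x).toReal with hdef
  have hβ1 : 0 < β - 1 := by linarith
  set r : ℝ := 1 / (β - 1) with hr
  have hr0 : 0 < r := by positivity
  have hr1 : (β - 1) * r = 1 := by
    rw [hr]
    field_simp
  filter_upwards [ae_leb hβ hh] with x hx
  change Tendsto (fun n => f β n x) atTop (𝓝 (h x))
  have hhx : 0 ≤ h x := hh.nonneg x
  rw [Metric.tendsto_nhds]
  intro ε hε
  -- the smoothing parameter
  obtain ⟨η, hη, hηr, hηε⟩ : ∃ η : ℝ, 0 < η ∧ η < r / 2 ∧ (β - 1) * (h x * (2 * η)) ≤ ε / 2 := by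
    set Q := (β - 1) * (h x * 2) with hQ
    have hQ0 : 0 ≤ Q := by positivity
    refine ⟨min (r / 4) (ε / 2 / (Q + 1)), by positivity, ?_, ?_⟩
    · exact (min_le_left _ _).trans_lt (by linarith)
    · calc (β - 1) * (h x * (2 * min (r / 4) (ε / 2 / (Q + 1))))
          = min (r / 4) (ε / 2 / (Q + 1)) * Q := by rw [hQ]; ring
        _ ≤ (ε / 2 / (Q + 1)) * Q := mul_le_mul_of_nonneg_right (min_le_right _ _) hQ0
        _ = (Q / (Q + 1)) * (ε / 2) := by ring
        _ ≤ 1 * (ε / 2) := by
          gcongr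
          rw [div_le_one (by positivity)]
          linarith
        _ = ε / 2 := one_mul _
  let u : ContDiffBump (-(r / 2)) := ⟨r / 2 - η, r / 2, by linarith, by linarith⟩
  let v : ContDiffBump (-(r / 2)) := ⟨r / 2, r / 2 + η, by linarith, by linarith⟩
  have hu := test_real hβ hβ2 hh hx u.contDiff u.hasCompactSupport
  have hv := test_real hβ hβ2 hh hx v.contDiff v.hasCompactSupport
  have iu : r - 2 * η ≤ ∫ s, u s := by
    have h1 := u.measure_closedBall_le_integral (μ := volume)
    rw [Measure.real, Real.volume_closedBall, ENNReal.toReal_ofReal (by simp [u]; linarith)] at h1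
    simp only [u] at h1 ⊢
    linarith
  have iv : ∫ s, v s ≤ r + 2 * η := by
    have h1 := v.integral_le_measure_closedBall (μ := volume)
    rw [Measure.real, Real.volume_closedBall, ENNReal.toReal_ofReal (by simp [v]; linarith)] at h1
    simp only [v] at h1 ⊢
    linarith
  have hmem : ∀ t : ℝ, t ∈ Icc (-r) 0 ↔ dist t (-(r / 2)) ≤ r / 2 := by
    intro t
    rw [mem_Icc, Real.dist_eq, abs_le]
    constructor
    · rintro ⟨h1, h2⟩
      constructor <;> linarith
    · rintro ⟨h1, h2⟩
      constructor <;> linarith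
  have lu : ∀ t, (β - 1) * u t ≤ (Icc (-r) 0).indicator (fun _ => β - 1) t := by
    intro t
    by_cases ht : t ∈ Icc (-r) 0
    · rw [indicator_of_mem ht]
      exact mul_le_of_le_one_right hβ1.le u.le_one
    · rw [indicator_of_notMem ht, u.zero_of_le_dist, mul_zero]
      rw [hmem, not_le] at ht
      exact ht.le
  have lv : ∀ t, (Icc (-r) 0).indicator (fun _ => β - 1) t ≤ (β - 1) * v t := by
    intro t
    by_cases ht : t ∈ Icc (-r) 0
    · rw [indicator_of_mem ht, v.one_of_mem_closedBall, mul_one]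
      rw [mem_closedBall]
      exact (hmem t).mp ht
    · rw [indicator_of_notMem ht]
      exact mul_nonneg hβ1.le v.nonneg
  have hu1 : h x - ε < (β - 1) * (h x * ∫ s, u s) := by
    have h1 : h x * (r - 2 * η) ≤ h x * ∫ s, u s := mul_le_mul_of_nonneg_left iu hhx
    have h2 := mul_le_mul_of_nonneg_left h1 hβ1.le
    have h3 : (β - 1) * (h x * (r - 2 * η)) = h x * ((β - 1) * r) - (β - 1) * (h x * (2 * η)) := by
      ring
    rw [h3, hr1, mul_one] at h2
    linarith
  have hv1 : (β - 1) * (h x * ∫ s, v s) < h x + ε := by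
    have h1 : h x * ∫ s, v s ≤ h x * (r + 2 * η) := mul_le_mul_of_nonneg_left iv hhx
    have h2 := mul_le_mul_of_nonneg_left h1 hβ1.le
    have h3 : (β - 1) * (h x * (r + 2 * η)) = h x * ((β - 1) * r) + (β - 1) * (h x * (2 * η)) := by
      ring
    rw [h3, hr1, mul_one] at h2
    linarith
  have hu2 := (hu.const_mul (β - 1)).eventually (lt_mem_nhds hu1)
  have hv2 := (hv.const_mul (β - 1)).eventually (gt_mem_nhds hv1)
  filter_upwards [hu2, hv2] with n a1 a2
  rw [← A_mul] at a1 a2
  have b1 := A_mono (by linarith : (0 : ℝ) ≤ β) n lu x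
  have b2 := A_mono (by linarith : (0 : ℝ) ≤ β) n lv x
  rw [f_eq_A, Real.dist_eq, abs_lt]
  constructor <;> linarith

end Pool.Agent.Results.MP_ddcbd8_an.AbsolutelyContinuousDensities
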